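import Pool.Agent.TH729.BQ.R6

/-!
# Diophantine sets given by one equation of bidegree (2,2) have algebraic suprema

Every Diophantine subset of `ℚ` can be given by one polynomial equation of degree at most four.
We consider the equations

  `a(x₁, …, xₙ) t² + b(x₁, …, xₙ) t + c(x₁, …, xₙ) = 0`,   `n ≥ 2`,

(of degree at most four) with linearly independent polynomials `a`, `b`, `c` over `ℚ` of degree at
most two, such that the quadratic form in `n + 1` variables obtained from the left-hand side by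
homogenizing with respect to `x₁, …, xₙ` is nondegenerate for some rational `t`.  For the sets of
the values of a coordinate at the rational solutions, and more generally for the sets of the values
of a rational function at the rational points of a finite product of such hypersurfaces, the
closure in `ℝ` has a finite boundary, which consists of algebraic numbers: it is a finite union of
points and closed intervals with algebraic end points.  In particular the supremum is algebraic if
it is finite.

The proof uses the libraries `TH729/BQ` and `TH729/CC`: the closure of the set of the rational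
solutions is semialgebraic over `ℚ`.
-/

set_option autoImplicit false

namespace Pool.Agent.Results.MP_b9427a_nt.BidegreeTwoTwo

open MvPolynomial Matrix

/-- The set of the zeros `y = (t, x₁, …, xₙ)` of a polynomial `a(x) t² + b(x) t + c(x)`, where `a`,
`b`, `c` are given by the symmetric matrices `A`, `B`, `C`, evaluated at the vector
`(1, x₁, …, xₙ)`, which is `Function.update y 0 1`.  We require that `n ≥ 2`, that the matrices are
linearly independent and that `t² A + t B + C` is invertible for some `t`. -/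
def TwoTwo {n : ℕ} (S : Set (Fin (n + 1) → ℚ)) : Prop :=
  2 ≤ n ∧ ∃ A B C : Matrix (Fin (n + 1)) (Fin (n + 1)) ℚ, A.IsSymm ∧ B.IsSymm ∧ C.IsSymm ∧
    LinearIndependent ℚ ![A, B, C] ∧ (∃ t : ℚ, (t ^ 2 • A + t • B + C).det ≠ 0) ∧
    S = {y | Function.update y 0 1 ⬝ᵥ (y 0 ^ 2 • A + y 0 • B + C) *ᵥ Function.update y 0 1 = 0}

/-- The set of the zeros of a polynomial as in `TwoTwo` in some of `N` variables. -/
def Cylinder {N : ℕ} (S : Set (Fin N → ℚ)) : Prop :=
  ∃ (n : ℕ) (e : Fin (n + 1) → Fin N) (S₀ : Set (Fin (n + 1) → ℚ)), Function.Injective e ∧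
    TwoTwo S₀ ∧ S = {y | (fun i => y (e i)) ∈ S₀}

theorem result :
    -- the values of a rational function at the rational points of products
    (∀ (ι κ : Type) [Finite ι] [Finite κ] (N : ℕ) (S : ι → Set (Fin N → ℚ)),
      (∀ j, Cylinder (S j)) →
      ∀ (p q : MvPolynomial ((ι × Fin N) ⊕ κ) ℚ) (D : Set ℚ),
        D = {t | ∃ (x : ι → Fin N → ℚ) (u : κ → ℚ), (∀ j, x j ∈ S j) ∧
          eval (Sum.elim (fun r => x r.1 r.2) u) q ≠ 0 ∧
          t = eval (Sum.elim (fun r => x r.1 r.2) u) p /
            eval (Sum.elim (fun r => x r.1 r.2) u) q} →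
        (frontier (closure (((↑) : ℚ → ℝ) '' D))).Finite ∧
        (∀ x ∈ frontier (closure (((↑) : ℚ → ℝ) '' D)), IsAlgebraic ℚ x) ∧
        (D.Nonempty → BddAbove (((↑) : ℚ → ℝ) '' D) →
          IsAlgebraic ℚ (sSup (((↑) : ℚ → ℝ) '' D)))) ∧
    -- in particular, the Diophantine sets given by one such equation
    (∀ (n : ℕ) (S : Set (Fin (n + 1) → ℚ)), TwoTwo S → ∀ (i : Fin (n + 1)) (X : Set ℚ),
      (∀ x : ℚ, x ∈ X ↔ ∃ y ∈ S, y i = x) →
      X.Nonempty → BddAbove (((↑) : ℚ → ℝ) '' X) →
        ¬ Transcendental ℚ (sSup (((↑) : ℚ → ℝ) '' X))) := by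
  have h1 : ∀ (ι κ : Type) [Finite ι] [Finite κ] (N : ℕ) (S : ι → Set (Fin N → ℚ)),
      (∀ j, Cylinder (S j)) →
      ∀ (p q : MvPolynomial ((ι × Fin N) ⊕ κ) ℚ) (D : Set ℚ),
        D = {t | ∃ (x : ι → Fin N → ℚ) (u : κ → ℚ), (∀ j, x j ∈ S j) ∧
          eval (Sum.elim (fun r => x r.1 r.2) u) q ≠ 0 ∧
          t = eval (Sum.elim (fun r => x r.1 r.2) u) p /
            eval (Sum.elim (fun r => x r.1 r.2) u) q} →
        (frontier (closure (((↑) : ℚ → ℝ) '' D))).Finite ∧
        (∀ x ∈ frontier (closure (((↑) : ℚ → ℝ) '' D)), IsAlgebraic ℚ x) ∧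
        (D.Nonempty → BddAbove (((↑) : ℚ → ℝ) '' D) →
          IsAlgebraic ℚ (sSup (((↑) : ℚ → ℝ) '' D))) := by
    intro ι κ _ _ N S hS p q D hD
    refine Pool.Agent.TH729.BQ.vals_line (fun j => ?_) p q hD
    obtain ⟨n, e, S₀, he, ⟨hn, A, B, C, hA, hB, hC, hind, hdet, hS₀⟩, hSj⟩ := hS j
    rw [hSj]
    exact Pool.Agent.TH729.BQ.cyl_SA (Rat.castHom ℝ)
      (Pool.Agent.TH729.BQ.twoTwo_SA (Rat.castHom ℝ) hn hA hB hC hind hdet hS₀) he
  refine ⟨h1, fun n S hS i Y hY hne hb => ?_⟩
  have h2 := (h1 Unit Empty (n + 1) (fun _ => S)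
    (fun _ => ⟨n, id, S, Function.injective_id, hS, rfl⟩)
    (X (Sum.inl ((), i))) 1 Y ?_).2.2 hne hb
  · exact fun h => h h2
  · ext t
    rw [hY]
    constructor
    · rintro ⟨y, hy1, hy2⟩
      exact ⟨fun _ => y, fun s => s.elim, fun _ => hy1, by simp, by simp [hy2]⟩
    · rintro ⟨x, u, hx, -, ht⟩
      exact ⟨x (), hx (), by simp [ht]⟩

end Pool.Agent.Results.MP_b9427a_nt.BidegreeTwoTwo
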