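import Pool.Agent.TH729.CC.Dio

/-!
# Diophantine sets given by one cubic or two quadratic equations have algebraic suprema

Every Diophantine set `{t ∈ ℚ : ∃ y, f(t, y) = 0}` can be given by one polynomial `f` of degree at
most four, or by a system of equations of degree at most two.  For the Diophantine sets given by
one equation of degree at most three or by two equations of degree at most two (in any number of
variables), and more generally for the sets of the values of a rational function at the rational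
points of a finite product of such varieties, the closure in `ℝ` has a finite boundary, which
consists of algebraic numbers: it is a finite union of points and closed intervals with algebraic
end points.  In particular the supremum is algebraic if it is finite.
-/

set_option autoImplicit false

namespace Pool.Agent.Results.MP_b9427a_nt.CubicsAndPairsOfQuadrics

open MvPolynomial

/-- Two polynomials of degree at most two, or one polynomial of degree at most three. -/
def Block {σ : Type} (f g : MvPolynomial σ ℚ) : Prop :=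
  (f.totalDegree ≤ 2 ∧ g.totalDegree ≤ 2) ∨ (f.totalDegree ≤ 3 ∧ g = 0)

theorem result :
    -- the values of a rational function at the rational points of products
    (∀ (ι κ : Type) [Finite ι] [Finite κ] (n : ℕ) (f g : ι → MvPolynomial (Fin n) ℚ),
      (∀ j, Block (f j) (g j)) →
      ∀ (p q : MvPolynomial ((ι × Fin n) ⊕ κ) ℚ) (D : Set ℚ),
        D = {t | ∃ (x : ι → Fin n → ℚ) (u : κ → ℚ),
          (∀ j, eval (x j) (f j) = 0 ∧ eval (x j) (g j) = 0) ∧
          eval (Sum.elim (fun r => x r.1 r.2) u) q ≠ 0 ∧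
          t = eval (Sum.elim (fun r => x r.1 r.2) u) p /
            eval (Sum.elim (fun r => x r.1 r.2) u) q} →
        (frontier (closure (((↑) : ℚ → ℝ) '' D))).Finite ∧
        (∀ x ∈ frontier (closure (((↑) : ℚ → ℝ) '' D)), IsAlgebraic ℚ x) ∧
        (D.Nonempty → BddAbove (((↑) : ℚ → ℝ) '' D) →
          IsAlgebraic ℚ (sSup (((↑) : ℚ → ℝ) '' D)))) ∧
    -- in particular, one equation of degree at most three or two of degree at most two
    (∀ (n : ℕ) (f g : MvPolynomial (Fin (n + 1)) ℚ), Block f g → ∀ X : Set ℚ,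
      (∀ x : ℚ, x ∈ X ↔ ∃ y : Fin n → ℚ, eval (Fin.cons x y : Fin (n + 1) → ℚ) f = 0 ∧
        eval (Fin.cons x y : Fin (n + 1) → ℚ) g = 0) →
      X.Nonempty → BddAbove (((↑) : ℚ → ℝ) '' X) →
        ¬ Transcendental ℚ (sSup (((↑) : ℚ → ℝ) '' X))) := by
  have h1 : ∀ (ι κ : Type) [Finite ι] [Finite κ] (n : ℕ) (f g : ι → MvPolynomial (Fin n) ℚ),
      (∀ j, Block (f j) (g j)) →
      ∀ (p q : MvPolynomial ((ι × Fin n) ⊕ κ) ℚ) (D : Set ℚ),
        D = {t | ∃ (x : ι → Fin n → ℚ) (u : κ → ℚ),
          (∀ j, eval (x j) (f j) = 0 ∧ eval (x j) (g j) = 0) ∧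
          eval (Sum.elim (fun r => x r.1 r.2) u) q ≠ 0 ∧
          t = eval (Sum.elim (fun r => x r.1 r.2) u) p /
            eval (Sum.elim (fun r => x r.1 r.2) u) q} →
        (frontier (closure (((↑) : ℚ → ℝ) '' D))).Finite ∧
        (∀ x ∈ frontier (closure (((↑) : ℚ → ℝ) '' D)), IsAlgebraic ℚ x) ∧
        (D.Nonempty → BddAbove (((↑) : ℚ → ℝ) '' D) →
          IsAlgebraic ℚ (sSup (((↑) : ℚ → ℝ) '' D))) := by
    intro ι κ _ _ n f g hfg p q D hD
    have h2 := Pool.Agent.TH729.CC.dio_SA f g hfg (m := 1) (fun _ => p) q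
    set S : Set (Fin 1 → ℝ) := {y : Fin 1 → ℝ | ∃ (x : ι → Fin n → ℚ) (u : κ → ℚ),
      (∀ j, eval (x j) (f j) = 0 ∧ eval (x j) (g j) = 0) ∧
      eval (Sum.elim (fun r => x r.1 r.2) u) q ≠ 0 ∧
      ∀ k, y k = ((eval (Sum.elim (fun r => x r.1 r.2) u) ((fun _ => p) k) /
        eval (Sum.elim (fun r => x r.1 r.2) u) q : ℚ) : ℝ)} with hS
    have h3 := Pool.Agent.TH729.CC.line_SA h2
    have h4 : {t : ℝ | (fun _ => t) ∈ closure S} = closure (((↑) : ℚ → ℝ) '' D) := by
      have h5 : (Homeomorph.funUnique (Fin 1) ℝ) '' S = ((↑) : ℚ → ℝ) '' D := by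
        ext t
        constructor
        · rintro ⟨y, ⟨x, u, hx, hq, hy⟩, rfl⟩
          refine ⟨_, ?_, (hy 0).symm⟩
          rw [hD]
          exact ⟨x, u, hx, hq, rfl⟩
        · rintro ⟨t, ht, rfl⟩
          rw [hD] at ht
          obtain ⟨x, u, hx, hq, rfl⟩ := ht
          exact ⟨fun _ => _, ⟨x, u, hx, hq, fun _ => rfl⟩, rfl⟩
      rw [← h5, ← (Homeomorph.funUnique (Fin 1) ℝ).image_closure]
      ext t
      constructor
      · intro ht
        exact ⟨fun _ => t, ht, rfl⟩
      · rintro ⟨y, hy, rfl⟩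
        have h6 : (fun _ => (Homeomorph.funUnique (Fin 1) ℝ) y) = y := by
          funext k
          rw [Subsingleton.elim k 0]
          rfl
        change (fun _ => (Homeomorph.funUnique (Fin 1) ℝ) y) ∈ closure S
        rw [h6]
        exact hy
    rw [h4] at h3
    refine ⟨h3.1, h3.2, fun hne hb => h3.2 _ ?_⟩
    set A : Set ℝ := ((↑) : ℚ → ℝ) '' D with hA
    have hAne : A.Nonempty := hne.image _
    have h5 : sSup A ∈ closure A := csSup_mem_closure hAne hb
    refine ⟨by rwa [closure_closure], fun h6 => ?_⟩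
    obtain ⟨ε, hε, hball⟩ := Metric.mem_nhds_iff.1 (mem_interior_iff_mem_nhds.1 h6)
    have h7 : sSup A + ε / 2 ∈ closure A := by
      apply hball
      rw [Metric.mem_ball, Real.dist_eq, add_sub_cancel_left, abs_of_pos (by linarith)]
      linarith
    have h8 : closure A ⊆ Set.Iic (sSup A) :=
      closure_minimal (fun a ha => le_csSup hb ha) isClosed_Iic
    have h9 := h8 h7
    rw [Set.mem_Iic] at h9
    linarith
  refine ⟨h1, fun n f g hfg Y hY hne hb => ?_⟩
  have h2 := (h1 Unit Empty (n + 1) (fun _ => f) (fun _ => g) (fun _ => hfg)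
    (X (Sum.inl ((), 0))) 1 Y ?_).2.2 hne hb
  · exact fun h => h h2
  · ext t
    rw [hY]
    constructor
    · rintro ⟨y, hy1, hy2⟩
      refine ⟨fun _ => Fin.cons t y, fun s => s.elim, fun _ => ⟨hy1, hy2⟩, by simp, by simp⟩
    · rintro ⟨x, u, hx, -, ht⟩
      have h5 : (Fin.cons t fun i : Fin n => x () i.succ : Fin (n + 1) → ℚ) = x () := by
        funext r
        refine Fin.cases ?_ (fun i => ?_) r
        · simp [ht]
        · simp
      refine ⟨fun i => x () i.succ, ?_, ?_⟩
      · rw [h5]
        exact (hx ()).1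
      · rw [h5]
        exact (hx ()).2

end Pool.Agent.Results.MP_b9427a_nt.CubicsAndPairsOfQuadrics
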