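import Pool.Agent.TH729.SQ.Tri
import Pool.Agent.TH729.BQ.R6

/-!
# Diophantine sets given by triquadratic surfaces have algebraic suprema

`F` is a form of tridegree `(2,2,2)` over `ℚ`, in the variables
`X (0,0), X (0,1); X (1,0), X (1,1); X (2,0), X (2,1)`, such that the surface `F = 0` in
`P¹ × P¹ × P¹` has only finitely many singular points and contains no fibre of the three
projections to `P¹ × P¹` (smooth surfaces of this kind are K3 surfaces).

For the Diophantine sets `{t : ∃ x y, F(t,1,x,1,y,1) = 0}`, and more generally for the sets of the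
values of a rational function at the rational points of a finite product of such surfaces (and of
an affine space), the closure in `ℝ` has a finite boundary, which consists of algebraic numbers: it
is a finite union of points and closed intervals with algebraic end points.  In particular the
supremum is algebraic if it is finite.

Ingredients: the closure of the rational points is semialgebraic over `ℚ`, by the local analysis
of `W279/TriR` and the theorem on relatively clopen subsets of semialgebraic sets (`TH729/SQ`).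
-/

set_option autoImplicit false

namespace Pool.Agent.Results.MP_b9427a_nt.TriquadraticSurfaces

open MvPolynomial Pool.Agent.W279.Tri Pool.Agent.W279.TriR Pool.Agent.TH729.SQ

/-- The hypotheses on the form `F`. -/
structure Admissible (F : MvPolynomial (Fin 3 × Fin 2) ℚ) : Prop where
  /-- `F` has the tridegree `(2,2,2)` -/
  tridegree : ∀ m ∈ F.support, ∀ i : Fin 3, m (i, 0) + m (i, 1) = 2
  /-- no fibre of the projections to two of the factors lies on the surface -/
  noFibre : ∀ (i : Fin 3) (p : Fin 3 → Fin 2 → AlgebraicClosure ℚ), (∀ j, p j ≠ 0) →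
    ∃ w : Fin 2 → AlgebraicClosure ℚ,
      aeval (fun q : Fin 3 × Fin 2 => Function.update p i w q.1 q.2) F ≠ 0
  /-- the surface has only finitely many singular points -/
  isolated : ∃ S : Set (Fin 3 → Fin 2 → AlgebraicClosure ℚ), S.Finite ∧
    ∀ p : Fin 3 → Fin 2 → AlgebraicClosure ℚ, (∀ i, p i ≠ 0) →
      (∀ q : Fin 3 × Fin 2, aeval (fun r : Fin 3 × Fin 2 => p r.1 r.2) (pderiv q F) = 0) →
      ∃ s ∈ S, ∀ i, ∃ t : AlgebraicClosure ℚ, p i = t • s i

/-- The rational points of the affine surface `F(x₀,1,x₁,1,x₂,1) = 0`. -/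
def points (F : MvPolynomial (Fin 3 × Fin 2) ℚ) : Set (Fin 3 → ℚ) :=
  {x | eval (fun q : Fin 3 × Fin 2 => if q.2 = 0 then x q.1 else 1) F = 0}

theorem result :
    -- the values of a rational function at the rational points of products
    (∀ (ι κ : Type) [Finite ι] [Finite κ] (F : ι → MvPolynomial (Fin 3 × Fin 2) ℚ),
      (∀ j, Admissible (F j)) →
      ∀ (p q : MvPolynomial ((ι × Fin 3) ⊕ κ) ℚ) (D : Set ℚ),
        D = {t | ∃ (x : ι → Fin 3 → ℚ) (u : κ → ℚ), (∀ j, x j ∈ points (F j)) ∧
          eval (Sum.elim (fun r => x r.1 r.2) u) q ≠ 0 ∧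
          t = eval (Sum.elim (fun r => x r.1 r.2) u) p /
            eval (Sum.elim (fun r => x r.1 r.2) u) q} →
        (frontier (closure (((↑) : ℚ → ℝ) '' D))).Finite ∧
        (∀ x ∈ frontier (closure (((↑) : ℚ → ℝ) '' D)), IsAlgebraic ℚ x) ∧
        (D.Nonempty → BddAbove (((↑) : ℚ → ℝ) '' D) →
          IsAlgebraic ℚ (sSup (((↑) : ℚ → ℝ) '' D)))) ∧
    -- in particular, the Diophantine sets given by one such surface
    (∀ F : MvPolynomial (Fin 3 × Fin 2) ℚ, Admissible F → ∀ (i : Fin 3) (X : Set ℚ),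
      (∀ x : ℚ, x ∈ X ↔ ∃ y ∈ points F, y i = x) →
      X.Nonempty → BddAbove (((↑) : ℚ → ℝ) '' X) →
        ¬ Transcendental ℚ (sSup (((↑) : ℚ → ℝ) '' X))) := by
  have haf : ∀ {R : Type} [Field R] (x : Fin 3 → R),
      (fun q : Fin 3 × Fin 2 => if q.2 = 0 then x q.1 else 1) = fun q => af x q.1 q.2 := by
    intro R _ x
    funext ⟨i, a⟩
    fin_cases a <;> simp [af]
  have h1 : ∀ F : MvPolynomial (Fin 3 × Fin 2) ℚ, Admissible F →
      Pool.Agent.H581R2.SA (closure ((fun (r : Fin 3 → ℚ) i => Rat.castHom ℝ (r i)) ''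
        points F)) := by
    intro F hF
    have hF' := hF
    obtain ⟨c, hc⟩ := exists_form hF.tridegree
    subst hc
    obtain ⟨T, hT, hT1, hT2⟩ := tri_main (nice_of hF'.noFibre hF'.isolated)
    have hpt : ∀ r : Fin 3 → ℚ, r ∈ points (form c) ↔ E c (af r 0) (af r 1) (af r 2) = 0 := by
      intro r
      change eval (fun q : Fin 3 × Fin 2 => if q.2 = 0 then r q.1 else 1) (form c) = 0 ↔ _
      rw [haf, eval_form]
    have hreal : (fun (r : Fin 3 → ℚ) i => Rat.castHom ℝ (r i)) '' points (form c) =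
        VK c (Rat.castHom ℝ) := by
      ext x
      constructor
      · rintro ⟨r, hr, rfl⟩
        exact ⟨r, (hpt r).1 hr, rfl⟩
      · rintro ⟨r, hr, rfl⟩
        exact ⟨r, (hpt r).2 hr, rfl⟩
    rw [hreal]
    exact (hT2 (Rat.castHom ℝ)).1
  have h2 : ∀ (ι κ : Type) [Finite ι] [Finite κ] (F : ι → MvPolynomial (Fin 3 × Fin 2) ℚ),
      (∀ j, Admissible (F j)) →
      ∀ (p q : MvPolynomial ((ι × Fin 3) ⊕ κ) ℚ) (D : Set ℚ),
        D = {t | ∃ (x : ι → Fin 3 → ℚ) (u : κ → ℚ), (∀ j, x j ∈ points (F j)) ∧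
          eval (Sum.elim (fun r => x r.1 r.2) u) q ≠ 0 ∧
          t = eval (Sum.elim (fun r => x r.1 r.2) u) p /
            eval (Sum.elim (fun r => x r.1 r.2) u) q} →
        (frontier (closure (((↑) : ℚ → ℝ) '' D))).Finite ∧
        (∀ x ∈ frontier (closure (((↑) : ℚ → ℝ) '' D)), IsAlgebraic ℚ x) ∧
        (D.Nonempty → BddAbove (((↑) : ℚ → ℝ) '' D) →
          IsAlgebraic ℚ (sSup (((↑) : ℚ → ℝ) '' D))) := by
    intro ι κ _ _ F hF p q D hD
    exact Pool.Agent.TH729.BQ.vals_line (fun j => h1 (F j) (hF j)) p q hD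
  refine ⟨h2, fun F hF i Y hY hne hb => ?_⟩
  have h3 := (h2 Unit Empty (fun _ => F) (fun _ => hF)
    (X (Sum.inl ((), i))) 1 Y ?_).2.2 hne hb
  · exact fun h => h h3
  · ext t
    rw [hY]
    constructor
    · rintro ⟨y, hy1, hy2⟩
      exact ⟨fun _ => y, fun s => s.elim, fun _ => hy1, by simp, by simp [hy2]⟩
    · rintro ⟨x, u, hx, -, ht⟩
      exact ⟨x (), hx (), by simp [ht]⟩

end Pool.Agent.Results.MP_b9427a_nt.TriquadraticSurfaces
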